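import Mathlib

/-!
# Yorioka ideals, dominating systems and the strong measure zero ideal
-/

namespace Pool.Agent.Q211.SM

open Cardinal Set Filter

/-- The Cantor space. -/
abbrev CS : Type := ℕ → Bool

/-- The basic clopen set `[s]`. -/
def Cyl (s : List Bool) : Set CS := {x | ∀ i (h : i < s.length), x i = s[i]}

/-- `[σ]_∞`: the points which extend `σ n` for infinitely many `n`. -/
def Lim (σ : ℕ → List Bool) : Set CS := {x | ∀ N, ∃ n ≥ N, x ∈ Cyl (σ n)}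

/-- The strong measure zero ideal. -/
def SN : Set (Set CS) :=
  {X | ∀ f : ℕ → ℕ, ∃ σ : ℕ → List Bool, (∀ n, (σ n).length = f n) ∧ X ⊆ ⋃ n, Cyl (σ n)}

/-- `f ≪ g`. -/
def LL (f g : ℕ → ℕ) : Prop := ∀ k, ∀ᶠ i in atTop, f (i ^ k) ≤ g i

/-- The Yorioka ideal `𝓘_f`. -/
def Yor (f : ℕ → ℕ) : Set (Set CS) :=
  {X | ∃ σ : ℕ → List Bool, X ⊆ Lim σ ∧ LL f fun n => (σ n).length}

/-- `κ ≤ minnon`: for all increasing `f` all sets with fewer than `κ` points are in `𝓘_f`. -/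
def LeMinnon (κ : Cardinal.{0}) : Prop :=
  ∀ f : ℕ → ℕ, StrictMono f → ∀ X : Set CS, #X < κ → X ∈ Yor f

/-- Tukey reducibility `⟨X, Y, R⟩ ≼ ⟨X', Y', R'⟩` of relational systems. -/
def Tukey {X Y X' Y' : Type} (R : X → Y → Prop) (R' : X' → Y' → Prop) : Prop :=
  ∃ (Ψ₁ : X → X') (Ψ₂ : Y' → Y), ∀ x y', R' (Ψ₁ x) y' → R x (Ψ₂ y')

/-- An `𝓘_f` directed system on `S`. -/
structure DirectedSystem (f : ℕ → ℕ) (S : Type) [PartialOrder S] (A : S → Set CS) : Prop where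
  dense : ∀ i, Dense (A i)
  isGδ : ∀ i, IsGδ (A i)
  mem : ∀ i, A i ∈ Yor f
  mono : ∀ i j, i ≤ j → A i ⊆ A j
  cofinal : ∀ X ∈ Yor f, ∃ i, X ⊆ A i

/-- The cardinal `κ` as a well-ordered set. -/
abbrev Idx (κ : Cardinal.{0}) : Type := κ.ord.ToType

/-- `⟨A^{f_γ} : γ < κ⟩` is a `κ`-dominating system on `S`, where `i₀` is the minimum of `S`. -/
structure DominatingSystem (κ : Cardinal.{0}) (S : Type) [PartialOrder S] (i₀ : S)
    (f : Idx κ → ℕ → ℕ) (A : Idx κ → S → Set CS) : Prop where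
  increasing : ∀ γ, StrictMono (f γ)
  dominating : ∀ g : ℕ → ℕ, ∃ γ, ∀ᶠ n in atTop, g n ≤ f γ n
  system : ∀ γ, DirectedSystem (f γ) S (A γ)
  notMem : ∀ γ, (⋂ η, ⋂ _ : η < γ, A η i₀) ∉ Yor (f γ)

/-- The hypotheses of Q1 for `κ` and the directed partial order `S` with minimum `i₀` and without
maximum. -/
structure Hypotheses (κ : Cardinal.{0}) (S : Type) [PartialOrder S] (i₀ : S) : Prop where
  directed : ∀ s t : S, ∃ u, s ≤ u ∧ t ≤ u
  minimum : ∀ s : S, i₀ ≤ s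
  noMaximum : ∀ s : S, ∃ t, ¬ t ≤ s
  tukey : Tukey (fun a b : Idx κ => a ≤ b) (fun s t : S => s ≤ t)
  system : ∃ (f : Idx κ → ℕ → ℕ) (A : Idx κ → S → Set CS), DominatingSystem κ S i₀ f A
  minnon : LeMinnon κ

/-- The conclusion of Q1: `𝐃_κ^κ ≼_T 𝓢𝓝`. -/
def Conclusion (κ : Cardinal.{0}) : Prop :=
  Tukey (fun x y : Idx κ → Idx κ => ∀ γ, x γ ≤ y γ) (fun X Y : SN => X.1 ⊆ Y.1)

/-! ## Basic facts -/

/-- The string `x ↾ h`. -/
def str (x : CS) (h : ℕ) : List Bool := List.ofFn fun i : Fin h => x i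

theorem length_str (x : CS) (h : ℕ) : (str x h).length = h := by simp [str]

theorem mem_cyl_str {x y : CS} {h : ℕ} : y ∈ Cyl (str x h) ↔ ∀ i < h, y i = x i := by
  constructor
  · intro hy i hi
    have := hy i (by rw [length_str]; exact hi)
    rw [this]
    simp [str]
  · intro hy i hi
    have hi' : i < h := by rwa [length_str] at hi
    rw [hy i hi']
    simp [str]

theorem isOpen_cyl (s : List Bool) : IsOpen (Cyl s) := by
  rw [isOpen_iff_forall_mem_open]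
  intro x hx
  refine ⟨PiNat.cylinder x s.length, ?_, PiNat.isOpen_cylinder _ _ _,
    PiNat.self_mem_cylinder _ _⟩
  intro y hy i hi
  rw [PiNat.mem_cylinder_iff] at hy
  rw [hy i hi]
  exact hx i hi

theorem isGδ_lim (σ : ℕ → List Bool) : IsGδ (Lim σ) := by
  have : Lim σ = ⋂ N : ℕ, ⋃ n : ℕ, ⋃ _ : N ≤ n, Cyl (σ n) := by
    ext x
    simp [Lim]
  rw [this]
  exact IsGδ.iInter_of_isOpen fun N => isOpen_iUnion fun n => isOpen_iUnion fun _ => isOpen_cyl _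

/-- A function `F` with `f ≪ F`. -/
def up (f : ℕ → ℕ) (n : ℕ) : ℕ := (Finset.range (n + 1)).sup fun k => f (n ^ k)

theorem ll_up (f : ℕ → ℕ) : LL f (up f) := by
  intro k
  filter_upwards [eventually_ge_atTop k] with i hi
  exact Finset.le_sup (f := fun k => f (i ^ k)) (Finset.mem_range.mpr (by omega))

/-- A sequence which catches all the points `e m`. -/
def catchAll (f : ℕ → ℕ) (e : ℕ → CS) (n : ℕ) : List Bool := str (e n.unpair.1) (up f n)

theorem range_subset_lim (f : ℕ → ℕ) (e : ℕ → CS) : range e ⊆ Lim (catchAll f e) := by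
  rintro _ ⟨m, rfl⟩ N
  refine ⟨Nat.pair m N, Nat.right_le_pair m N, ?_⟩
  unfold catchAll
  rw [mem_cyl_str]
  intro i _
  simp

theorem ll_catchAll (f : ℕ → ℕ) (e : ℕ → CS) : LL f fun n => (catchAll f e n).length := by
  intro k
  filter_upwards [ll_up f k] with i hi
  simpa [catchAll, length_str] using hi

theorem catchAll_mem (f : ℕ → ℕ) (e : ℕ → CS) : Lim (catchAll f e) ∈ Yor f :=
  ⟨catchAll f e, subset_rfl, ll_catchAll f e⟩

theorem mem_of_countable (f : ℕ → ℕ) {X : Set CS} (hX : X.Countable) : X ∈ Yor f := by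
  rcases X.eq_empty_or_nonempty with rfl | hne
  · exact ⟨catchAll f fun _ _ => false, empty_subset _, ll_catchAll f _⟩
  · obtain ⟨e, rfl⟩ := hX.exists_eq_range hne
    exact ⟨catchAll f e, range_subset_lim f e, ll_catchAll f e⟩

/-- Two sequences in turn. -/
def mix (σ τ : ℕ → List Bool) (n : ℕ) : List Bool := if n % 2 = 0 then σ (n / 2) else τ (n / 2)

theorem lim_subset_mix (σ τ : ℕ → List Bool) : Lim σ ∪ Lim τ ⊆ Lim (mix σ τ) := by
  rintro x (hx | hx) N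
  · obtain ⟨n, hn, h⟩ := hx N
    refine ⟨2 * n, by omega, ?_⟩
    have : mix σ τ (2 * n) = σ n := by simp [mix]
    rwa [this]
  · obtain ⟨n, hn, h⟩ := hx N
    refine ⟨2 * n + 1, by omega, ?_⟩
    have h2 : (2 * n + 1) / 2 = n := by omega
    have : mix σ τ (2 * n + 1) = τ n := by simp [mix, h2]
    rwa [this]

theorem pow_half {n k : ℕ} (hn : 2 ^ (k + 2) ≤ n) : n ^ k ≤ (n / 2) ^ (2 * k + 2) := by
  have h4 : 4 ≤ n := le_trans (by
    calc 4 = 2 ^ 2 := by norm_num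
      _ ≤ 2 ^ (k + 2) := Nat.pow_le_pow_right (by norm_num) (by omega)) hn
  have h1 : n ≤ (n / 2) ^ 2 + 0 ∨ n ≤ (n / 2) ^ 2 * 2 := by
    right
    have h2 : 2 ≤ n / 2 := by omega
    nlinarith [Nat.div_add_mod n 2, Nat.mod_lt n (by norm_num : 0 < 2)]
  have h5 : n ≤ (n / 2) ^ 2 * 2 := by
    rcases h1 with h | h
    · omega
    · exact h
  calc n ^ k ≤ ((n / 2) ^ 2 * 2) ^ k := Nat.pow_le_pow_left h5 k
    _ = (n / 2) ^ (2 * k) * 2 ^ k := by rw [mul_pow, ← pow_mul]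
    _ ≤ (n / 2) ^ (2 * k) * (n / 2) ^ 2 := by
        apply Nat.mul_le_mul_left
        have : 2 ^ k ≤ n / 2 := by
          have h6 : 2 ^ (k + 2) = 2 ^ k * 4 := by rw [pow_add]; norm_num
          omega
        calc 2 ^ k ≤ n / 2 := this
          _ ≤ (n / 2) ^ 2 := by
            rw [sq]
            exact Nat.le_mul_self _
    _ = (n / 2) ^ (2 * k + 2) := by rw [← pow_add]

theorem ll_mix {f : ℕ → ℕ} (hf : Monotone f) {σ τ : ℕ → List Bool}
    (hσ : LL f fun n => (σ n).length) (hτ : LL f fun n => (τ n).length) :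
    LL f fun n => (mix σ τ n).length := by
  intro k
  obtain ⟨N₁, h₁⟩ := eventually_atTop.mp (hσ (2 * k + 2))
  obtain ⟨N₂, h₂⟩ := eventually_atTop.mp (hτ (2 * k + 2))
  filter_upwards [eventually_ge_atTop (2 ^ (k + 2)), eventually_ge_atTop (2 * (N₁ + N₂) + 1)]
    with n hn1 hn2
  have h3 : f (n ^ k) ≤ f ((n / 2) ^ (2 * k + 2)) := hf (pow_half hn1)
  refine h3.trans ?_
  unfold mix
  split_ifs with h
  · exact h₁ (n / 2) (by omega)
  · exact h₂ (n / 2) (by omega)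

theorem exists_hull {f : ℕ → ℕ} (hf : Monotone f) {X Y : Set CS} (hX : X ∈ Yor f)
    (hY : Y ∈ Yor f) : ∃ Z ∈ Yor f, IsGδ Z ∧ X ∪ Y ⊆ Z := by
  obtain ⟨σ, hσ, hσl⟩ := hX
  obtain ⟨τ, hτ, hτl⟩ := hY
  exact ⟨Lim (mix σ τ), ⟨_, subset_rfl, ll_mix hf hσl hτl⟩, isGδ_lim _,
    (union_subset_union hσ hτ).trans (lim_subset_mix σ τ)⟩

end Pool.Agent.Q211.SM
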