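import Pool.Agent.Q211.SM.Def

/-!
# A dominating system which does not give `𝐃_κ^κ ≼_T 𝓢𝓝`
-/

namespace Pool.Agent.Q211.SM

open Cardinal Set Filter

/-- The first `m` values of `z`, then the value `b`. -/
def pad {m : ℕ} (p : Fin m → Bool) (b : Bool) : CS := fun i => if h : i < m then p ⟨i, h⟩ else b

/-- Lengths, by recursion. -/
def lens (nx : ℕ → ℕ → ℕ) : ℕ → ℕ
  | 0 => 0
  | n + 1 => max (nx n (lens nx n)) (lens nx n + 1)

/-- Points, by recursion. -/
def pts (nz : ℕ → CS → CS) : ℕ → CS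
  | 0 => fun _ => false
  | n + 1 => nz n (pts nz n)

/-- The diagonal argument: a dense `Gδ` set is not in `𝓘_f` if `f` grows fast enough. -/
theorem exists_bound {G : Set CS} (hG : IsGδ G) (hd : Dense G) :
    ∃ M : ℕ → ℕ, ∀ f : ℕ → ℕ, (∀ n, M n < f n) → G ∉ Yor f := by
  obtain ⟨U, hU, hGU⟩ := isGδ_iff_eq_iInter_nat.mp hG
  have hUd : ∀ n, Dense (U n) := fun n => hd.mono (by rw [hGU]; exact iInter_subset _ _)
  have hext : ∀ (n : ℕ) (z : CS) (h : ℕ), ∃ (t : CS) (h' : ℕ), h < h' ∧ (∀ i < h, t i = z i) ∧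
      ∀ y : CS, (∀ i < h', y i = t i) → y ∈ U n := by
    intro n z h
    obtain ⟨t, ht1, ht2⟩ := (hUd n).inter_open_nonempty _ (PiNat.isOpen_cylinder _ z h)
      ⟨z, PiNat.self_mem_cylinder _ _⟩
    obtain ⟨v, ⟨a, m, rfl⟩, h1, h2⟩ :=
      (PiNat.isTopologicalBasis_cylinders (E := fun _ : ℕ => Bool)).exists_subset_of_mem_open ht2
        (hU n)
    refine ⟨t, max (h + 1) m, by omega, fun i hi => PiNat.mem_cylinder_iff.mp ht1 i hi, ?_⟩
    intro y hy
    apply h2
    rw [PiNat.mem_cylinder_iff] at h1 ⊢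
    intro i hi
    rw [hy i (by omega)]
    exact h1 i hi
  choose T H hH hT hTU using hext
  -- the lengths
  let nx : ℕ → ℕ → ℕ := fun n m => (Finset.univ : Finset ((Fin m → Bool) × Bool)).sup
    fun p => H n (pad p.1 p.2) (m + 1)
  let M : ℕ → ℕ := lens nx
  have hM : ∀ n, M (n + 1) = max (nx n (M n)) (M n + 1) := fun n => rfl
  have hMlt : ∀ n, M n < M (n + 1) := fun n => by rw [hM]; omega
  have hMmono : StrictMono M := strictMono_nat_of_lt_succ hMlt
  have hMge : ∀ n, n ≤ M n := fun _ => hMmono.le_apply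
  refine ⟨M, fun f hf hmem => ?_⟩
  obtain ⟨σ, hσ, hl⟩ := hmem
  let b : ℕ → Bool := fun n => if h : M n < (σ n).length then !((σ n)[M n]'h) else false
  let nz : ℕ → CS → CS := fun n z => T n (pad (fun i : Fin (M n) => z i.1) (b n)) (M n + 1)
  let z : ℕ → CS := pts nz
  have hz : ∀ n, z (n + 1) = nz n (z n) := fun n => rfl
  have hz1 : ∀ n, ∀ i < M n, z (n + 1) i = z n i := by
    intro n i hi
    rw [hz]
    show T n _ _ i = _
    rw [hT n _ _ i (by omega)]
    simp [pad, hi]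
  have hz2 : ∀ n, z (n + 1) (M n) = b n := by
    intro n
    rw [hz]
    show T n _ _ (M n) = _
    rw [hT n _ _ _ (Nat.lt_succ_self _)]
    simp [pad]
  have hz3 : ∀ n (y : CS), (∀ i < M (n + 1), y i = z (n + 1) i) → y ∈ U n := by
    intro n y hy
    apply hTU n (pad (fun i : Fin (M n) => z n i.1) (b n)) (M n + 1)
    intro i hi
    refine hy i (lt_of_lt_of_le hi ?_)
    rw [hM]
    refine le_trans ?_ (le_max_left _ _)
    exact Finset.le_sup (f := fun p : (Fin (M n) → Bool) × Bool => H n (pad p.1 p.2) (M n + 1))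
      (Finset.mem_univ ((fun i : Fin (M n) => z n i.1), b n))
  have hz4 : ∀ n k, ∀ i < M n, z (n + k) i = z n i := by
    intro n k
    induction k with
    | zero => intro i _; rfl
    | succ k ih =>
      intro i hi
      rw [← add_assoc, hz1 (n + k) i (lt_of_lt_of_le hi (hMmono.monotone (by omega)))]
      exact ih i hi
  let y : CS := fun i => z (i + 1) i
  have hy : ∀ n, ∀ i < M n, y i = z n i := by
    intro n i hi
    rcases le_total n (i + 1) with h | h
    · obtain ⟨k, hk⟩ := Nat.exists_eq_add_of_le h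
      show z (i + 1) i = z n i
      rw [hk]
      exact hz4 n k i hi
    · obtain ⟨k, hk⟩ := Nat.exists_eq_add_of_le h
      show z (i + 1) i = z n i
      rw [hk]
      refine (hz4 (i + 1) k i ?_).symm
      exact lt_of_lt_of_le (Nat.lt_succ_self i) (hMge (i + 1))
  have hyG : y ∈ G := by
    rw [hGU, mem_iInter]
    exact fun n => hz3 n y (hy (n + 1))
  obtain ⟨N, hN⟩ := eventually_atTop.mp (hl 1)
  obtain ⟨n, hn, hyn⟩ := hσ hyG N
  have h1 : f n ≤ (σ n).length := by simpa using hN n hn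
  have h2 : M n < (σ n).length := lt_of_lt_of_le (hf n) h1
  have h3 : y (M n) = (σ n)[M n] := hyn (M n) h2
  have h4 : y (M n) = b n := by
    rw [hy (n + 1) (M n) (hMlt n)]
    exact hz2 n
  have h5 : b n = !(σ n)[M n] := by simp [b, h2]
  rw [h4, h5] at h3
  cases h : (σ n)[M n] <;> simp [h] at h3

/-- A strictly increasing function above `g` and `M`. -/
def above (g M : ℕ → ℕ) (n : ℕ) : ℕ := ∑ i ∈ Finset.range (n + 1), (g i + M i + 1)

theorem strictMono_above (g M : ℕ → ℕ) : StrictMono (above g M) := by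
  apply strictMono_nat_of_lt_succ
  intro n
  unfold above
  rw [Finset.sum_range_succ _ (n + 1)]
  omega

theorem le_above (g M : ℕ → ℕ) (n : ℕ) : g n + M n < above g M n := by
  unfold above
  rw [Finset.sum_range_succ]
  omega

/-- A countable dense sequence. -/
noncomputable def dsq : ℕ → CS := TopologicalSpace.denseSeq CS

theorem dense_lim (f : ℕ → ℕ) : Dense (Lim (catchAll f dsq)) :=
  (TopologicalSpace.denseRange_denseSeq CS).mono (range_subset_lim f dsq)

theorem countable_Iio (γ : Idx ℵ₁) : (Iio γ).Countable := by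
  rw [countable_iff_lt_aleph_one]
  exact mk_Iio_toType_ord_lt γ

theorem exists_functions (g : Idx ℵ₁ → ℕ → ℕ) : ∃ f : Idx ℵ₁ → ℕ → ℕ,
    (∀ γ, StrictMono (f γ)) ∧ (∀ γ n, g γ n ≤ f γ n) ∧
    ∀ γ, (⋂ η, ⋂ _ : η < γ, Lim (catchAll (f η) dsq)) ∉ Yor (f γ) := by
  have step : ∀ (γ : Idx ℵ₁) (F : (η : Idx ℵ₁) → η < γ → ℕ → ℕ), ∃ f : ℕ → ℕ, StrictMono f ∧
      (∀ n, g γ n ≤ f n) ∧ (⋂ η, ⋂ h : η < γ, Lim (catchAll (F η h) dsq)) ∉ Yor f := by
    intro γ F
    have hc : Countable (Iio γ) := (countable_Iio γ).to_subtype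
    have he : (⋂ η, ⋂ h : η < γ, Lim (catchAll (F η h) dsq)) =
        ⋂ η : Iio γ, Lim (catchAll (F η.1 η.2) dsq) := by
      ext x
      simp only [mem_iInter, Subtype.forall, mem_Iio]
    have hG : IsGδ (⋂ η : Iio γ, Lim (catchAll (F η.1 η.2) dsq)) :=
      IsGδ.iInter fun _ => isGδ_lim _
    have hD : Dense (⋂ η : Iio γ, Lim (catchAll (F η.1 η.2) dsq)) :=
      dense_iInter_of_Gδ (fun _ => isGδ_lim _) fun _ => dense_lim _
    obtain ⟨M, hM⟩ := exists_bound hG hD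
    refine ⟨above (g γ) M, strictMono_above _ _, fun n => ?_, ?_⟩
    · have := le_above (g γ) M n
      omega
    · rw [he]
      exact hM _ fun n => by
        have := le_above (g γ) M n
        omega
  choose st h1 h2 h3 using step
  let f : Idx ℵ₁ → ℕ → ℕ := wellFounded_lt.fix st
  have hf : ∀ γ, f γ = st γ fun η _ => f η := fun γ => WellFounded.fix_eq _ _ γ
  refine ⟨f, fun γ => ?_, fun γ => ?_, fun γ => ?_⟩
  · rw [hf γ]
    exact h1 _ _
  · rw [hf γ]
    exact h2 _ _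
  · have := h3 γ fun η _ => f η
    rwa [← hf γ] at this

/-- The directed set: the sequences of members of the ideals, times the cardinal. -/
def Seqs (f : Idx ℵ₁ → ℕ → ℕ) : Type :=
  {s : Idx ℵ₁ → Set CS // ∀ γ, IsGδ (s γ) ∧ s γ ∈ Yor (f γ) ∧ Lim (catchAll (f γ) dsq) ⊆ s γ}

instance (f : Idx ℵ₁ → ℕ → ℕ) : PartialOrder (Seqs f) := Subtype.partialOrder _

/-- The minimum of `Seqs f`. -/
noncomputable def seqBot (f : Idx ℵ₁ → ℕ → ℕ) : Seqs f :=
  ⟨fun γ => Lim (catchAll (f γ) dsq), fun γ => ⟨isGδ_lim _, catchAll_mem _ _, subset_rfl⟩⟩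

theorem nonempty_Idx : Nonempty (Idx ℵ₁) := by
  rw [← mk_ne_zero_iff, Cardinal.mk_ord_toType]
  exact (aleph_pos 1).ne'

theorem noMax_Idx (a : Idx ℵ₁) : ∃ b, a < b := by
  by_contra hcon
  push Not at hcon
  have h1 : Iic a = Set.univ := by
    ext b
    simp [hcon b]
  have h2 : (Iic a).Countable := by
    have : Iic a = insert a (Iio a) := by
      ext b
      simp [le_iff_eq_or_lt]
    rw [this]
    exact (countable_Iio a).insert a
  rw [h1, countable_iff_lt_aleph_one, mk_univ, Cardinal.mk_ord_toType] at h2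
  exact lt_irrefl _ h2

theorem hypotheses {g : Idx ℵ₁ → ℕ → ℕ} (hg : ∀ h : ℕ → ℕ, ∃ γ, ∀ᶠ n in atTop, h n ≤ g γ n) :
    ∃ (S : Type) (_ : PartialOrder S) (i₀ : S), Hypotheses ℵ₁ S i₀ := by
  classical
  obtain ⟨f, hf1, hf2, hf3⟩ := exists_functions g
  obtain ⟨a₀⟩ := nonempty_Idx
  obtain ⟨o, ho⟩ : ∃ o : Idx ℵ₁, ∀ a, o ≤ a := by
    refine ⟨wellFounded_lt.min Set.univ ⟨a₀, trivial⟩, fun a => ?_⟩
    exact not_lt.mp (WellFounded.not_lt_min _ _ (mem_univ a))
  refine ⟨Seqs f × Idx ℵ₁, inferInstance, (seqBot f, o), ?_, ?_, ?_, ?_, ?_, ?_⟩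
  · rintro ⟨s, a⟩ ⟨t, c⟩
    choose Z hZ1 hZ2 hZ3 using fun γ => exists_hull (hf1 γ).monotone (s.2 γ).2.1 (t.2 γ).2.1
    refine ⟨(⟨Z, fun γ => ⟨hZ2 γ, hZ1 γ, (s.2 γ).2.2.trans (subset_union_left.trans (hZ3 γ))⟩⟩,
      max a c), ⟨?_, le_max_left _ _⟩, ⟨?_, le_max_right _ _⟩⟩
    · exact fun γ => subset_union_left.trans (hZ3 γ)
    · exact fun γ => subset_union_right.trans (hZ3 γ)
  · rintro ⟨s, a⟩
    exact ⟨fun γ => (s.2 γ).2.2, ho a⟩
  · rintro ⟨s, a⟩
    obtain ⟨b, hb⟩ := noMax_Idx a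
    exact ⟨(s, b), fun h => not_le.mpr hb h.2⟩
  · exact ⟨fun a => (seqBot f, a), fun s => s.2, fun a s h => h.2⟩
  · refine ⟨f, fun γ s => s.1.1 γ, hf1, ?_, ?_, ?_⟩
    · intro h
      obtain ⟨γ, hγ⟩ := hg h
      refine ⟨γ, ?_⟩
      filter_upwards [hγ] with n hn
      exact hn.trans (hf2 γ n)
    · intro γ
      refine ⟨?_, ?_, ?_, ?_, ?_⟩
      · exact fun s => (dense_lim (f γ)).mono (s.1.2 γ).2.2
      · exact fun s => (s.1.2 γ).1
      · exact fun s => (s.1.2 γ).2.1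
      · exact fun s t h => h.1 γ
      · intro X hX
        obtain ⟨Z, hZ1, hZ2, hZ3⟩ := exists_hull (hf1 γ).monotone hX (catchAll_mem (f γ) dsq)
        refine ⟨(⟨fun δ => if δ = γ then Z else Lim (catchAll (f δ) dsq), ?_⟩, o), ?_⟩
        · intro δ
          by_cases h : δ = γ
          · subst h
            simp only [if_pos rfl]
            exact ⟨hZ2, hZ1, subset_union_right.trans hZ3⟩
          · simp only [if_neg h]
            exact ⟨isGδ_lim _, catchAll_mem _ _, subset_rfl⟩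
        · simp only [if_pos rfl]
          exact subset_union_left.trans hZ3
    · intro γ
      exact hf3 γ
  · intro h _ X hX
    exact mem_of_countable h (countable_iff_lt_aleph_one X |>.mpr hX)

theorem not_conclusion
    (hadd : ∀ F : Idx ℵ₁ → Set CS, (∀ α, F α ∈ SN) → (⋃ α, F α) ∈ SN) : ¬ Conclusion ℵ₁ := by
  rintro ⟨Ψ₁, Ψ₂, h⟩
  obtain ⟨a₀⟩ := nonempty_Idx
  let X : SN := ⟨⋃ α, (Ψ₁ fun _ => α).1, hadd _ fun α => (Ψ₁ fun _ => α).2⟩
  obtain ⟨b, hb⟩ := noMax_Idx (Ψ₂ X a₀)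
  have := h (fun _ => b) X (subset_iUnion (fun α => (Ψ₁ fun _ => α).1) b) a₀
  exact not_le.mpr hb this

end Pool.Agent.Q211.SM
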