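import Pool.Agent.Q120.SM.Stm

/-!
# Project SM: the values of a system in distant windows are different
-/

set_option autoImplicit false

namespace Pool.Agent.Q211.SM

open Finset MeasureTheory Filter Topology Polynomial
open Pool.Agent.Q120.SM

theorem ev_pos {r : ℝ[X]} {d : ℕ} (hd : r.natDegree ≤ d) (hc : 0 < r.coeff d) :
    ∀ᶠ x : ℝ in atTop, 0 < r.eval x := by
  have h1 : r.natDegree = d := le_antisymm hd (le_natDegree_of_ne_zero hc.ne')
  have h2 : 0 < r.leadingCoeff := by
    rw [leadingCoeff, h1]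
    exact hc
  rcases Nat.eq_zero_or_pos r.natDegree with h | h
  · refine Eventually.of_forall fun x => ?_
    rw [eq_C_of_natDegree_eq_zero h, eval_C]
    rw [← h1, h] at hc
    exact hc
  · exact (tendsto_atTop_of_leadingCoeff_nonneg r (natDegree_pos_iff_degree_pos.1 h) h2.le).eventually_gt_atTop 0

theorem ev_mono {r : ℝ[X]} {d : ℕ} (hd : r.natDegree ≤ d) (hc : 0 < r.coeff d) :
    ∃ A : ℝ, MonotoneOn (fun x => r.eval x) (Set.Ici A) := by
  have h1 : r.natDegree = d := le_antisymm hd (le_natDegree_of_ne_zero hc.ne')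
  rcases Nat.eq_zero_or_pos d with h | h
  · refine ⟨0, fun x _ y _ _ => ?_⟩
    have h2 := eq_C_of_natDegree_eq_zero (h1.trans h)
    simp only
    rw [h2, eval_C, eval_C]
  · have h3 : (derivative r).natDegree ≤ d - 1 := (natDegree_derivative_le r).trans (by omega)
    have h4 : 0 < (derivative r).coeff (d - 1) := by
      rw [coeff_derivative, Nat.sub_add_cancel h]
      have : (0 : ℝ) ≤ ((d - 1 : ℕ) : ℝ) := Nat.cast_nonneg _
      exact mul_pos hc (by linarith)
    obtain ⟨A, hA⟩ := (ev_pos h3 h4).exists_forall_of_atTop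
    refine ⟨A, monotoneOn_of_deriv_nonneg (convex_Ici A) r.continuous.continuousOn
      r.differentiable.differentiableOn fun x hx => ?_⟩
    rw [interior_Ici] at hx
    rw [Polynomial.deriv]
    exact (hA x (le_of_lt hx)).le

/-- real version -/
theorem real_sep {p q : ℝ[X]} (hp : 0 < p.natDegree) (hpl : 0 < p.leadingCoeff) (hq : 0 < q.natDegree)
    (hql : 0 < q.leadingCoeff) {θ : ℝ} (hθ : θ < 1) :
    ∃ D : ℕ, ∀ᶠ n : ℝ in atTop, ∀ n' : ℝ, n + D ≤ n' → n' ≤ n + 2 * n ^ θ → p.eval n ≠ q.eval n' := by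
  obtain ⟨A, hA⟩ := ev_mono le_rfl hql
  by_cases c1 : p.natDegree ≤ q.natDegree ∧ p.coeff q.natDegree < q.leadingCoeff
  · -- `q` is larger
    obtain ⟨c1, c2⟩ := c1
    have h1 : (q - p).natDegree ≤ q.natDegree :=
      (natDegree_sub_le q p).trans (max_le le_rfl c1)
    have h2 : 0 < (q - p).coeff q.natDegree := by
      rw [coeff_sub]
      exact sub_pos.2 c2
    refine ⟨0, ?_⟩
    filter_upwards [ev_pos h1 h2, eventually_ge_atTop A] with n hn hnA n' hn1 _ heq
    rw [Nat.cast_zero, add_zero] at hn1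
    have h3 : q.eval n ≤ q.eval n' := hA hnA (hnA.trans hn1) hn1
    rw [eval_sub] at hn
    linarith
  · by_cases c2 : q.natDegree ≤ p.natDegree ∧ q.coeff p.natDegree < p.leadingCoeff
    · -- `p` is larger
      obtain ⟨c2, c3⟩ := c2
      have h1 : ∃ r : ℝ, 1 < r ∧ q.coeff p.natDegree * r ^ p.natDegree < p.leadingCoeff := by
        have h2 : Tendsto (fun r : ℝ => q.coeff p.natDegree * r ^ p.natDegree) (𝓝[>] 1)
            (𝓝 (q.coeff p.natDegree * 1 ^ p.natDegree)) :=
          ((continuous_const.mul (continuous_pow _)).tendsto 1).mono_left nhdsWithin_le_nhds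
        rw [one_pow, mul_one] at h2
        obtain ⟨r, hr1, hr2⟩ := ((h2.eventually_lt_const c3).and self_mem_nhdsWithin).exists
        exact ⟨r, hr2, hr1⟩
      obtain ⟨r, hr1, hr2⟩ := h1
      set s : ℝ[X] := q.comp (C r * X) with hs
      have hsd : s.natDegree ≤ p.natDegree := by
        rw [hs, natDegree_comp, natDegree_C_mul_X r (by linarith), mul_one]
        exact c2
      have h3 : (p - s).natDegree ≤ p.natDegree :=
        (natDegree_sub_le p s).trans (max_le le_rfl hsd)
      have h4 : 0 < (p - s).coeff p.natDegree := by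
        rw [coeff_sub, hs, comp_C_mul_X_coeff]
        exact sub_pos.2 hr2
      refine ⟨0, ?_⟩
      have h5 : ∀ᶠ n : ℝ in atTop, n + 2 * n ^ θ ≤ r * n := by
        have h6 : Tendsto (fun n : ℝ => n ^ (-(1 - θ))) atTop (𝓝 0) :=
          tendsto_rpow_neg_atTop (by linarith)
        filter_upwards [h6.eventually_lt_const (by linarith : 0 < (r - 1) / 2), eventually_gt_atTop 0] with n hn hn0
        have h7 : n ^ θ = n ^ (-(1 - θ)) * n := by
          rw [← Real.rpow_add_one hn0.ne']
          congr 1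
          ring
        rw [h7]
        nlinarith
      filter_upwards [ev_pos h3 h4, eventually_ge_atTop (max A 0), h5] with n hn hnA hnr n' hn1 hn2 heq
      rw [Nat.cast_zero, add_zero] at hn1
      have hA1 : A ≤ n := (le_max_left _ _).trans hnA
      have hn'r : n' ≤ r * n := hn2.trans hnr
      have h8 : q.eval n' ≤ q.eval (r * n) := hA (hA1.trans hn1) ((hA1.trans hn1).trans hn'r) hn'r
      rw [eval_sub, hs, eval_comp, eval_mul, eval_C, eval_X] at hn
      linarith
    · -- same degree, same leading coefficient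
      have hdeg : p.natDegree = q.natDegree := by
        rcases lt_trichotomy p.natDegree q.natDegree with h | h | h
        · exact absurd ⟨h.le, by rw [coeff_eq_zero_of_natDegree_lt h]; exact hql⟩ c1
        · exact h
        · exact absurd ⟨h.le, by rw [coeff_eq_zero_of_natDegree_lt h]; exact hpl⟩ c2
      have hlead : p.leadingCoeff = q.leadingCoeff := by
        rcases lt_trichotomy p.leadingCoeff q.leadingCoeff with h | h | h
        · exact absurd ⟨hdeg.le, by rw [← hdeg]; exact h⟩ c1
        · exact h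
        · exact absurd ⟨hdeg.ge, by rw [hdeg]; exact h⟩ c2
      have hp0 : p ≠ 0 := leadingCoeff_ne_zero.1 hpl.ne'
      have hq0 : q ≠ 0 := leadingCoeff_ne_zero.1 hql.ne'
      have hd1 : (derivative q).natDegree ≤ q.natDegree - 1 := natDegree_derivative_le q
      have hd2 : 0 < (derivative q).coeff (q.natDegree - 1) := by
        rw [coeff_derivative, Nat.sub_add_cancel hq]
        have : (0 : ℝ) ≤ ((q.natDegree - 1 : ℕ) : ℝ) := Nat.cast_nonneg _
        exact mul_pos hql (by linarith)
      have hd3 : (derivative q).natDegree = q.natDegree - 1 :=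
        le_antisymm hd1 (le_natDegree_of_ne_zero hd2.ne')
      have hd0 : derivative q ≠ 0 := by
        intro h
        rw [h, coeff_zero] at hd2
        exact lt_irrefl _ hd2
      obtain ⟨B, hB⟩ := ev_mono hd1 hd2
      have hdd : (q - p).degree ≤ (derivative q).degree := by
        by_cases hz : q - p = 0
        · rw [hz, degree_zero]
          exact bot_le
        · have h1 : (q - p).degree < q.degree := degree_sub_lt_left
            (by rw [degree_eq_natDegree hp0, degree_eq_natDegree hq0, hdeg]) hq0 hlead.symm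
          rw [degree_eq_natDegree hz, degree_eq_natDegree hd0, hd3]
          rw [degree_eq_natDegree hz, degree_eq_natDegree hq0] at h1
          have h2 : (q - p).natDegree < q.natDegree := by exact_mod_cast h1
          exact_mod_cast (by omega : (q - p).natDegree ≤ q.natDegree - 1)
      obtain ⟨K, hK⟩ := (isBigO_atTop_of_degree_le (q - p) (derivative q) hdd).bound
      obtain ⟨D, hD⟩ := exists_nat_gt K
      refine ⟨D, ?_⟩
      filter_upwards [hK, ev_pos hd1 hd2, eventually_ge_atTop B] with n h1 h2 h3 n' hn1 _ heq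
      have hDn : (0 : ℝ) ≤ D := Nat.cast_nonneg _
      have hnn : n ≤ n' := by linarith
      have h4 : (derivative q).eval n * (n' - n) ≤ q.eval n' - q.eval n := by
        refine Convex.mul_sub_le_image_sub_of_le_deriv (convex_Icc n n') q.continuous.continuousOn
          q.differentiable.differentiableOn (fun y hy => ?_) n (Set.left_mem_Icc.2 hnn) n'
          (Set.right_mem_Icc.2 hnn) hnn
        rw [interior_Icc] at hy
        rw [Polynomial.deriv]
        exact hB h3 (h3.trans hy.1.le) hy.1.le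
      rw [eval_sub, Real.norm_eq_abs, Real.norm_eq_abs, abs_of_pos h2] at h1
      have h5 := (abs_le.1 h1).1
      have h6 : (derivative q).eval n * D ≤ (derivative q).eval n * (n' - n) :=
        mul_le_mul_of_nonneg_left (by linarith) h2.le
      have h7 : K * (derivative q).eval n < (derivative q).eval n * D := by
        rw [mul_comm]
        exact mul_lt_mul_of_pos_left hD h2
      linarith

theorem int_sep {p q : ℤ[X]} (hp : 0 < p.natDegree) (hpl : 0 < p.leadingCoeff) (hq : 0 < q.natDegree)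
    (hql : 0 < q.leadingCoeff) {θ : ℝ} (hθ : θ < 1) :
    ∃ D : ℕ, ∃ N : ℕ, ∀ n n' : ℕ, N ≤ n → n + D ≤ n' → (n' : ℝ) ≤ n + 2 * (n : ℝ) ^ θ →
      p.eval (n : ℤ) ≠ q.eval (n' : ℤ) := by
  have hinj : Function.Injective (Int.castRingHom ℝ) := Int.cast_injective
  have hP1 : (p.map (Int.castRingHom ℝ)).natDegree = p.natDegree := natDegree_map_eq_of_injective hinj p
  have hQ1 : (q.map (Int.castRingHom ℝ)).natDegree = q.natDegree := natDegree_map_eq_of_injective hinj q
  have hP2 : (p.map (Int.castRingHom ℝ)).leadingCoeff = (p.leadingCoeff : ℝ) := leadingCoeff_map_of_injective hinj p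
  have hQ2 : (q.map (Int.castRingHom ℝ)).leadingCoeff = (q.leadingCoeff : ℝ) := leadingCoeff_map_of_injective hinj q
  obtain ⟨D, hD⟩ := real_sep (p := p.map (Int.castRingHom ℝ)) (q := q.map (Int.castRingHom ℝ))
    (by rw [hP1]; exact hp) (by rw [hP2]; exact_mod_cast hpl) (by rw [hQ1]; exact hq)
    (by rw [hQ2]; exact_mod_cast hql) hθ
  obtain ⟨A, hA⟩ := hD.exists_forall_of_atTop
  obtain ⟨N, hN⟩ := exists_nat_ge A
  refine ⟨D, N, fun n n' h1 h2 h3 heq => ?_⟩
  refine hA (n : ℝ) (hN.trans (by exact_mod_cast h1)) (n' : ℝ) (by exact_mod_cast h2) h3 ?_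
  have e1 := eval_intCast_map (Int.castRingHom ℝ) p (n : ℤ)
  have e2 := eval_intCast_map (Int.castRingHom ℝ) q (n' : ℤ)
  rw [Int.cast_natCast] at e1 e2
  rw [e1, e2, Int.cast_id, Int.cast_id, heq]

theorem t_SEP : J_SEP := by
  intro k P hS θ hθ0 hθ1
  have h1 : ∀ i j : Fin k, ∃ D : ℕ, ∃ N : ℕ, ∀ n n' : ℕ, N ≤ n → n + D ≤ n' →
      (n' : ℝ) ≤ n + 2 * (n : ℝ) ^ θ → (P i).eval (n : ℤ) ≠ (P j).eval (n' : ℤ) :=
    fun i j => int_sep (hS.deg i) (hS.lead i) (hS.deg j) (hS.lead j) hθ1
  choose D N H using h1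
  refine ⟨∑ i, ∑ j, D i j, ?_⟩
  filter_upwards [eventually_ge_atTop (((∑ i, ∑ j, N i j : ℕ) : ℝ) + 1)] with x hx m m' h hxm hm' hd hmx hh
  rw [Set.disjoint_left]
  rintro v ⟨n, i, hn1, hn2, hv⟩ ⟨n', j, hn1', hn2', hv'⟩
  have hDij : D i j ≤ ∑ i, ∑ j, D i j :=
    (single_le_sum (f := fun j => D i j) (fun _ _ => Nat.zero_le _) (mem_univ j)).trans
      (single_le_sum (f := fun i => ∑ j, D i j) (fun _ _ => Nat.zero_le _) (mem_univ i))
  have hNij : N i j ≤ ∑ i, ∑ j, N i j :=
    (single_le_sum (f := fun j => N i j) (fun _ _ => Nat.zero_le _) (mem_univ j)).trans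
      (single_le_sum (f := fun i => ∑ j, N i j) (fun _ _ => Nat.zero_le _) (mem_univ i))
  have hmn : (m : ℝ) + 1 ≤ n := by exact_mod_cast hn1
  have hxn : x ≤ n := by linarith
  have hx0 : 0 ≤ x := by
    have : (0 : ℝ) ≤ ((∑ i, ∑ j, N i j : ℕ) : ℝ) := Nat.cast_nonneg _
    linarith
  have hNn : N i j ≤ n := by
    have h2 : ((∑ i, ∑ j, N i j : ℕ) : ℝ) ≤ n := by linarith
    have h3 : (∑ i, ∑ j, N i j) ≤ n := by exact_mod_cast h2
    omega
  refine H i j n n' hNn (by omega) ?_ (hv ▸ hv')
  have hxθ : x ^ θ ≤ (n : ℝ) ^ θ := Real.rpow_le_rpow hx0 hxn hθ0.le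
  have hn'' : (n' : ℝ) ≤ m' + h := by exact_mod_cast hn2'
  linarith

end Pool.Agent.Q211.SM
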